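import Pool.Agent.helper84.NR.Spec

/-!
# Row nrv:PMI (second hand), project NR (MP_133bfc_co): the mirror image of the route along a face
-/

set_option autoImplicit false

namespace Pool.Agent.helper84.NR

open scoped Classical
open Finset

theorem PMI (hIDX : IDX_stmt) (hEDG : EDG_stmt) : PMI_stmt := by
  intro V F M x y f k0 k hne hnn hy hk1 hkn hadj hfree
  obtain ⟨I1, I2, I3, I4, I5⟩ := hIDX V F M.toCyc f k0
  obtain ⟨E1, E2⟩ := hEDG V F M
  have hthree := M.three f
  have hyf : OnV M.toCyc f y := ⟨k0, hy⟩
  have hxf : ¬ OnV M.toCyc f x := fun h => hne f ⟨h, hyf⟩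
  -- the part on the face
  have keyA : ∀ (g : F) (a b : ℕ), a ≤ b → b ≤ k → OnV M.toCyc g (M.bd f (k0 + a)) →
      OnV M.toCyc g (M.bd f (k0 + b)) → ∀ m, a ≤ m → m < b →
      OnE M.toCyc g s(M.bd f (k0 + m), M.bd f (k0 + m + 1)) := by
    intro g a b hab hbn hga hgb m hm1 hm2
    by_cases hgf : g = f
    · rw [hgf]
      exact ⟨k0 + m, rfl⟩
    have hne' : M.bd f (k0 + a) ≠ M.bd f (k0 + b) := by
      intro h
      have h1 := I1 a b (by omega) (by omega) h
      omega
    obtain ⟨p1, p2, -⟩ := M.poly g f hgf _ _ hne' hga hgb ⟨k0 + a, rfl⟩ ⟨k0 + b, rfl⟩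
    rcases I4 a b (by omega) (by omega) p2 with h2 | ⟨h2, h3⟩
    · have h4 : m = a := by omega
      rw [h4]
      rw [h2] at p1
      exact p1
    · exfalso
      have h5 : k = b := by omega
      refine hnn _ hadj ?_
      rw [h5]
      refine ⟨f, ?_⟩
      rw [h2, Sym2.eq_swap] at p2
      rw [← hy]
      exact p2
  obtain ⟨q, hq0, hqs⟩ : ∃ q : ℕ → V, q 0 = x ∧ ∀ i, q (i + 1) = M.bd f (k0 + (k - i)) :=
    ⟨fun i => if i = 0 then x else M.bd f (k0 + (k - (i - 1))), by simp, fun i => by simp⟩
  have hqx : ∀ i, q (i + 1) ≠ x := by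
    intro i h
    rw [hqs] at h
    exact hxf ⟨_, h⟩
  refine ⟨k + 1, q, hq0, ?_, ?_, ?_, ?_⟩
  · rw [hqs, show k - k = 0 by omega]
    exact hy
  · intro i j hi hj hij
    cases i with
    | zero =>
      cases j with
      | zero => rfl
      | succ j =>
        rw [hq0] at hij
        exact absurd hij.symm (hqx j)
    | succ i =>
      cases j with
      | zero =>
        rw [hq0] at hij
        exact absurd hij (hqx i)
      | succ j =>
        rw [hqs, hqs] at hij
        have h1 := I1 _ _ (by omega) (by omega) hij
        omega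
  · intro i hi
    cases i with
    | zero =>
      rw [hq0, hqs]
      exact hadj
    | succ i =>
      rw [hqs, hqs]
      refine ⟨f, k0 + (k - (i + 1)), ?_⟩
      rw [Sym2.eq_swap, show k0 + (k - (i + 1)) + 1 = k0 + (k - i) by omega]
  · intro g i j hij hj hgi hgj m hm1 hm2
    cases j with
    | zero => omega
    | succ j =>
      rw [hqs] at hgj
      have hstep : ∀ m, m + 1 ≤ k → OnE M.toCyc g s(M.bd f (k0 + (k - (m + 1))), M.bd f (k0 + (k - (m + 1)) + 1)) →
          OnE M.toCyc g s(q (m + 1), q (m + 1 + 1)) := by
        intro m hm h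
        rw [hqs, hqs, Sym2.eq_swap, show k0 + (k - m) = k0 + (k - (m + 1)) + 1 by omega]
        exact h
      cases i with
      | zero =>
        rw [hq0] at hgi
        have hb : j < k := by
          by_contra hc
          have h1 : k - j = 0 := by omega
          rw [h1] at hgj
          exact hne g ⟨hgi, by rw [← hy]; exact hgj⟩
        have hgk : OnV M.toCyc g (M.bd f (k0 + k)) := by
          rcases Nat.eq_zero_or_pos j with h1 | h1
          · rw [h1] at hgj
            exact hgj
          · exact hfree (k - j) (by omega) (by omega) g hgi hgj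
        cases m with
        | zero =>
          rw [hq0, hqs]
          exact E2 g x _ hadj hgi hgk
        | succ m =>
          exact hstep m (by omega) (keyA g (k - j) k (by omega) le_rfl hgj hgk (k - (m + 1)) (by omega) (by omega))
      | succ i =>
        rw [hqs] at hgi
        cases m with
        | zero => omega
        | succ m =>
          exact hstep m (by omega) (keyA g (k - j) (k - i) (by omega) (by omega) hgj hgi (k - (m + 1)) (by omega)
            (by omega))

end Pool.Agent.helper84.NR
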