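import Pool.Agent.helper84.NR.Spec

/-!
# Row nrv:PPL, project NR (MP_133bfc_co): the route along a face
-/

set_option autoImplicit false

namespace Pool.Agent.helper84.NR

open scoped Classical
open Finset

/-- Injectivity of the boundary on `[1, len]`. -/
private theorem PPL_inj (hIDX : IDX_stmt) {V F : Type} (M : Cyc V F) (f : F) (k0 : ℕ) {a b : ℕ} (ha : 1 ≤ a)
    (ha' : a ≤ M.len f) (hb : 1 ≤ b) (hb' : b ≤ M.len f) (h : M.bd f (k0 + a) = M.bd f (k0 + b)) : a = b := by
  obtain ⟨h1, -, -, -, h5⟩ := hIDX V F M f k0
  have h3 := M.three f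
  rcases Nat.lt_or_ge a (M.len f) with h6 | h6
  · rcases Nat.lt_or_ge b (M.len f) with h7 | h7
    · exact h1 a b h6 h7 h
    · have h8 : b = M.len f := by omega
      rw [h8, h5] at h
      have h9 := h1 a 0 h6 (by omega) h
      omega
  · have h8 : a = M.len f := by omega
    rcases Nat.lt_or_ge b (M.len f) with h7 | h7
    · rw [h8, h5] at h
      have h9 := h1 0 b (by omega) h7 h
      omega
    · omega

theorem PPL (hIDX : IDX_stmt) (hEDG : EDG_stmt) : PPL_stmt := by
  intro V F M x y f k0 k hne hnn hy hk1 hkn hadj hfree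
  obtain ⟨I1, I2, I3, I4, I5⟩ := hIDX V F M.toCyc f k0
  obtain ⟨E1, E2⟩ := hEDG V F M
  have hthree := M.three f
  have hun : M.bd f (k0 + M.len f) = y := I5.trans hy
  have hyf : OnV M.toCyc f y := ⟨k0, hy⟩
  have hxf : ¬ OnV M.toCyc f x := fun h => hne f ⟨h, hyf⟩
  -- the part on the face
  have keyA : ∀ (g : F) (a b : ℕ), k ≤ a → a ≤ b → b ≤ M.len f → OnV M.toCyc g (M.bd f (k0 + a)) →
      OnV M.toCyc g (M.bd f (k0 + b)) → ∀ m, a ≤ m → m < b →
      OnE M.toCyc g s(M.bd f (k0 + m), M.bd f (k0 + m + 1)) := by
    intro g a b hka hab hbn hga hgb m hm1 hm2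
    by_cases hgf : g = f
    · rw [hgf]
      exact ⟨k0 + m, rfl⟩
    have hne' : M.bd f (k0 + a) ≠ M.bd f (k0 + b) := by
      intro h
      have h1 := PPL_inj hIDX M.toCyc f k0 (by omega) (by omega) (by omega) hbn h
      omega
    obtain ⟨p1, p2, -⟩ := M.poly g f hgf _ _ hne' hga hgb ⟨k0 + a, rfl⟩ ⟨k0 + b, rfl⟩
    have hfin : b = a + 1 → OnE M.toCyc g s(M.bd f (k0 + m), M.bd f (k0 + m + 1)) := by
      intro h
      have h2 : m = a := by omega
      rw [h2]
      rw [h] at p1
      exact p1
    rcases Nat.lt_or_ge b (M.len f) with h1 | h1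
    · rcases I4 a b (by omega) h1 p2 with h2 | h2
      · exact hfin h2
      · omega
    · have h2 : b = M.len f := by omega
      have h3 : OnE M.toCyc f s(M.bd f (k0 + 0), M.bd f (k0 + a)) := by
        have h4 : M.bd f (k0 + b) = M.bd f (k0 + 0) := by rw [h2]; exact I5
        rw [← h4, Sym2.eq_swap]
        exact p2
      rcases I4 0 a (by omega) (by omega) h3 with h4 | h4
      · exfalso
        have h5 : k = a := by omega
        refine hnn _ hadj ?_
        rw [h5]
        refine ⟨f, ?_⟩
        have h6 : M.bd f (k0 + b) = y := by rw [h2]; exact hun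
        rw [← h6]
        exact p2
      · exact hfin (by omega)
  obtain ⟨q, hq0, hqs⟩ : ∃ q : ℕ → V, q 0 = x ∧ ∀ i, q (i + 1) = M.bd f (k0 + (k + i)) :=
    ⟨fun i => if i = 0 then x else M.bd f (k0 + (k + (i - 1))), by simp, fun i => by simp⟩
  have hqx : ∀ i, q (i + 1) ≠ x := by
    intro i h
    rw [hqs] at h
    exact hxf ⟨_, h⟩
  refine ⟨M.len f - k + 1, q, hq0, ?_, ?_, ?_, ?_⟩
  · rw [hqs, show k + (M.len f - k) = M.len f by omega]
    exact hun
  · intro i j hi hj hij
    cases i with
    | zero =>
      cases j with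
      | zero => rfl
      | succ j =>
        rw [hq0] at hij
        exact absurd hij.symm (hqx j)
    | succ i =>
      cases j with
      | zero =>
        rw [hq0] at hij
        exact absurd hij (hqx i)
      | succ j =>
        rw [hqs, hqs] at hij
        have h1 := PPL_inj hIDX M.toCyc f k0 (by omega) (by omega) (by omega) (by omega) hij
        omega
  · intro i hi
    cases i with
    | zero =>
      rw [hq0, hqs]
      exact hadj
    | succ i =>
      rw [hqs, hqs]
      exact ⟨f, k0 + (k + i), rfl⟩
  · intro g i j hij hj hgi hgj m hm1 hm2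
    cases j with
    | zero => omega
    | succ j =>
      rw [hqs] at hgj
      cases i with
      | zero =>
        rw [hq0] at hgi
        have hb : k + j < M.len f := by
          by_contra hc
          have h1 : k + j = M.len f := by omega
          rw [h1, hun] at hgj
          exact hne g ⟨hgi, hgj⟩
        have hgk : OnV M.toCyc g (M.bd f (k0 + k)) := by
          rcases Nat.eq_zero_or_pos j with h1 | h1
          · rw [h1] at hgj
            exact hgj
          · exact hfree (k + j) (by omega) hb g hgi hgj
        cases m with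
        | zero =>
          rw [hq0, hqs]
          exact E2 g x _ hadj hgi hgk
        | succ m =>
          rw [hqs, hqs]
          exact keyA g k (k + j) le_rfl (by omega) (by omega) hgk hgj (k + m) (by omega) (by omega)
      | succ i =>
        rw [hqs] at hgi
        cases m with
        | zero => omega
        | succ m =>
          rw [hqs, hqs]
          exact keyA g (k + i) (k + j) (by omega) (by omega) (by omega) hgi hgj (k + m) (by omega) (by omega)

end Pool.Agent.helper84.NR
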